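import Pool.Agent.H18.TD.Targets
import Pool.Agent.H18.SQL.Growth2

/-!
Board td1_modules (MP_58ae59_nt), row LAW: the square root law for families.
-/

set_option autoImplicit false

open Polynomial Module Filter Topology Pool.Agent.H18.TD

namespace Pool.Agent.H74.TD1

open Pool.Agent.H72.PER (HRS)

theorem aeval_cast (t : ℝ) (p : ℚ[X]) : aeval (t : ℂ) p = ((aeval t p : ℝ) : ℂ) := by
  have h := Polynomial.aeval_algebraMap_apply (A := ℝ) ℂ t p
  simpa using h

theorem ao_aeval (t : ℂ) (p : ℚ[X]) : AO t (aeval t p) := by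
  have h : aeval t p ∈ IntermediateField.adjoin ℚ ({t} : Set ℂ) :=
    IntermediateField.algebra_adjoin_le_adjoin ℚ _
      (Polynomial.aeval_mem_adjoin_singleton ℚ t)
  exact isAlgebraic_algebraMap (A := ℂ)
    (⟨aeval t p, h⟩ : IntermediateField.adjoin ℚ ({t} : Set ℂ))

theorem pf_LAW : T_AOC → T_TDH → T_LAW := by
  intro hAOC hTDH t β ht hβ hβA n D a hlin hdeg hexp
  rcases n with _ | k
  · simp
  have hinj : ∀ p : ℚ[X], aeval t p = 0 → p = 0 := fun p hp => by
    by_contra hne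
    exact ht ⟨p, hne, hp⟩
  have htC : Transcendental ℚ (t : ℂ) := by
    rintro ⟨p, hp, h0⟩
    rw [aeval_cast] at h0
    exact hp (hinj p (by exact_mod_cast h0))
  obtain ⟨-, -, -, hmul, -⟩ := hAOC (t : ℂ)
  set w : Fin (k + 1) → ℂ := fun i => (β : ℂ) * aeval (t : ℂ) (a i) with hw
  have hwi : ∀ i, w i = (β : ℂ) * ((aeval t (a i) : ℝ) : ℂ) := fun i => by
    rw [← aeval_cast]
  have hwA : ∀ i, AO (t : ℂ) (w i) := fun i => hmul _ _ hβA (ao_aeval _ _)
  have hwE : ∀ i, AO (t : ℂ) (Complex.exp (w i)) := fun i => by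
    have h := hexp i
    have e : ((Real.exp (β * aeval t (a i)) : ℝ) : ℂ) = Complex.exp (w i) := by
      rw [hwi, Complex.ofReal_exp, Complex.ofReal_mul]
    rwa [e] at h
  have hβC : (β : ℂ) ≠ 0 := by exact_mod_cast hβ
  have hq : ∀ q : Fin (k + 1) → ℤ, Complex.exp (∑ i, (q i : ℂ) * w i) = 1 → q = 0 := by
    intro q hq
    have e1 : ∑ i, (q i : ℂ) * w i = ((β * aeval t (∑ i, (q i : ℚ) • a i) : ℝ) : ℂ) := by
      rw [map_sum, Finset.mul_sum, Complex.ofReal_sum]
      refine Finset.sum_congr rfl fun i _ => ?_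
      rw [hwi, map_smul, Complex.ofReal_mul]
      have : (((q i : ℚ) • aeval t (a i) : ℝ) : ℂ) = (q i : ℂ) * ((aeval t (a i) : ℝ) : ℂ) := by
        rw [Rat.smul_def]
        push_cast
        ring
      rw [this]
      ring
    rw [e1, ← Complex.ofReal_exp] at hq
    have h2 : Real.exp (β * aeval t (∑ i, (q i : ℚ) • a i)) = 1 := by exact_mod_cast hq
    rw [Real.exp_eq_one_iff] at h2
    have h3 : aeval t (∑ i, (q i : ℚ) • a i) = 0 := by
      rcases mul_eq_zero.1 h2 with h | h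
      · exact absurd h hβ
      · exact h
    have h4 := hinj _ h3
    have h5 := Fintype.linearIndependent_iff.1 hlin (fun i => (q i : ℚ)) h4
    funext i
    exact_mod_cast h5 i
  have hR := hTDH (t : ℂ) htC k w hwA hwE hq
  have ha0 : ∀ i, aeval (t : ℂ) (a i) ≠ 0 := fun i h0 => by
    rw [aeval_cast] at h0
    exact hlin.ne_zero i (hinj _ (by exact_mod_cast h0))
  exact Pool.Agent.H18.SQL.sqrt_law (K := ℚ) (F := ℂ) _ hR (t : ℂ) a (ha0 0) (fun i => by
    have h0 := ha0 0
    rw [hw]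
    field_simp) D hdeg

end Pool.Agent.H74.TD1
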