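import Pool.Agent.H18.TD.Targets

/-!
Board td1_modules (MP_58ae59_nt), row NRB: the matrix of a value of an integer polynomial.
-/

set_option autoImplicit false

open Polynomial Module Filter Topology Pool.Agent.H18.TD

namespace Pool.Agent.H74.TD1

noncomputable section

/-- length of an integer polynomial -/
def len (P : ℤ[X]) : ℝ := ∑ i ∈ P.support, |(P.coeff i : ℝ)|

theorem len_nn (P : ℤ[X]) : 0 ≤ len P := Finset.sum_nonneg fun _ _ => abs_nonneg _

theorem len_eq (P : ℤ[X]) (s : Finset ℕ) (h : P.support ⊆ s) :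
    len P = ∑ i ∈ s, |(P.coeff i : ℝ)| := by
  refine Finset.sum_subset h fun i _ hi => ?_
  rw [Polynomial.notMem_support_iff.1 hi]
  simp

theorem len_zero : len 0 = 0 := by simp [len]

theorem len_add (P Q : ℤ[X]) : len (P + Q) ≤ len P + len Q := by
  have h1 := len_eq P (P.support ∪ Q.support) Finset.subset_union_left
  have h2 := len_eq Q (P.support ∪ Q.support) Finset.subset_union_right
  have h3 := len_eq (P + Q) (P.support ∪ Q.support) Polynomial.support_add
  rw [h1, h2, h3, ← Finset.sum_add_distrib]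
  refine Finset.sum_le_sum fun i _ => ?_
  rw [Polynomial.coeff_add]
  push_cast
  exact abs_add_le _ _

theorem len_sum {Ω : Type} (s : Finset Ω) (f : Ω → ℤ[X]) :
    len (∑ w ∈ s, f w) ≤ ∑ w ∈ s, len (f w) := by
  classical
  induction s using Finset.induction_on with
  | empty => simp [len_zero]
  | insert a s ha ih =>
    rw [Finset.sum_insert ha, Finset.sum_insert ha]
    exact (len_add _ _).trans (by linarith)

theorem len_monomial (n : ℕ) (a : ℤ) : len (monomial n a) ≤ |(a : ℝ)| := by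
  rw [len_eq (monomial n a) {n} (Polynomial.support_monomial_subset n a)]
  simp

theorem len_mul (P Q : ℤ[X]) : len (P * Q) ≤ len P * len Q := by
  rw [Polynomial.mul_eq_sum_sum]
  refine (len_sum _ _).trans ?_
  have h : ∀ i ∈ P.support, len (Q.sum fun j a => monomial (i + j) (P.coeff i * a)) ≤
      |(P.coeff i : ℝ)| * len Q := by
    intro i _
    rw [Polynomial.sum_def]
    refine (len_sum _ _).trans ?_
    have : |(P.coeff i : ℝ)| * len Q = ∑ j ∈ Q.support, |(P.coeff i : ℝ)| * |(Q.coeff j : ℝ)| := by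
      rw [len, Finset.mul_sum]
    rw [this]
    refine Finset.sum_le_sum fun j _ => (len_monomial _ _).trans (le_of_eq ?_)
    push_cast
    rw [abs_mul]
  refine (Finset.sum_le_sum h).trans (le_of_eq ?_)
  rw [← Finset.sum_mul]
  rfl

theorem len_one : len 1 ≤ 1 := by
  have := len_monomial 0 1
  simpa using this

theorem len_smul (n : ℤ) (P : ℤ[X]) : len (C n * P) ≤ |(n : ℝ)| * len P := by
  refine (len_mul _ _).trans ?_
  have h := len_monomial 0 n
  rw [Polynomial.monomial_zero_left] at h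
  exact mul_le_mul_of_nonneg_right h (len_nn P)

variable {N : ℕ}

/-- `A` represents the multiplication by `z`, with bounds for degrees and row sums of lengths -/
def W (t : ℂ) (b : Fin N → ℂ) (z : ℂ) (A : Matrix (Fin N) (Fin N) ℤ[X]) (d : ℕ) (a : ℝ) : Prop :=
  (∀ j, z * b j = ∑ k, aeval t (A j k) * b k) ∧ (∀ j k, (A j k).natDegree ≤ d) ∧
    ∀ j, ∑ k, len (A j k) ≤ a

variable {t : ℂ} {b : Fin N → ℂ}

theorem W_scalar (D : ℤ[X]) : W t b (aeval t D) (Matrix.scalar (Fin N) D) D.natDegree (len D) := by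
  refine ⟨fun j => ?_, fun j k => ?_, fun j => ?_⟩
  · rw [Finset.sum_eq_single j]
    · simp
    · intro k _ hk
      simp [Matrix.scalar_apply, Matrix.diagonal_apply_ne' _ hk]
    · intro h; exact absurd (Finset.mem_univ j) h
  · by_cases h : j = k
    · subst h; simp
    · simp [Matrix.scalar_apply, Matrix.diagonal_apply_ne _ h]
  · rw [Finset.sum_eq_single j]
    · simp
    · intro k _ hk
      simp [Matrix.scalar_apply, Matrix.diagonal_apply_ne' _ hk, len_zero]
    · intro h; exact absurd (Finset.mem_univ j) h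

theorem W_mul {z z' : ℂ} {A A' : Matrix (Fin N) (Fin N) ℤ[X]} {d d' : ℕ} {a a' : ℝ}
    (ha : 0 ≤ a) (h : W t b z A d a) (h' : W t b z' A' d' a') :
    W t b (z * z') (A' * A) (d + d') (a * a') := by
  obtain ⟨h1, h2, h3⟩ := h
  obtain ⟨h1', h2', h3'⟩ := h'
  refine ⟨fun j => ?_, fun j k => ?_, fun j => ?_⟩
  · rw [mul_assoc, h1', Finset.mul_sum]
    have e : ∀ k, z * (aeval t (A' j k) * b k) =
        ∑ m, aeval t (A' j k) * (aeval t (A k m) * b m) := by
      intro k
      rw [mul_left_comm, h1, Finset.mul_sum]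
    rw [Finset.sum_congr rfl fun k _ => e k, Finset.sum_comm]
    refine Finset.sum_congr rfl fun m _ => ?_
    rw [Matrix.mul_apply, map_sum, Finset.sum_mul]
    refine Finset.sum_congr rfl fun k _ => ?_
    rw [map_mul, mul_assoc]
  · rw [Matrix.mul_apply]
    refine Polynomial.natDegree_sum_le_of_forall_le _ _ fun m _ => ?_
    refine Polynomial.natDegree_mul_le.trans ?_
    have := h2' j m
    have := h2 m k
    omega
  · calc ∑ k, len ((A' * A) j k) ≤ ∑ k, ∑ m, len (A' j m) * len (A m k) := by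
          refine Finset.sum_le_sum fun k _ => ?_
          rw [Matrix.mul_apply]
          exact (len_sum _ _).trans (Finset.sum_le_sum fun m _ => len_mul _ _)
      _ = ∑ m, len (A' j m) * ∑ k, len (A m k) := by
          rw [Finset.sum_comm]
          refine Finset.sum_congr rfl fun m _ => ?_
          rw [Finset.mul_sum]
      _ ≤ ∑ m, len (A' j m) * a :=
          Finset.sum_le_sum fun m _ => mul_le_mul_of_nonneg_left (h3 m) (len_nn _)
      _ = (∑ m, len (A' j m)) * a := by rw [Finset.sum_mul]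
      _ ≤ a * a' := by
          rw [mul_comm a]
          exact mul_le_mul_of_nonneg_right (h3' j) ha

theorem W_mono {z : ℂ} {A : Matrix (Fin N) (Fin N) ℤ[X]} {d d' : ℕ} {a a' : ℝ}
    (h : W t b z A d a) (hd : d ≤ d') (ha : a ≤ a') : W t b z A d' a' :=
  ⟨h.1, fun j k => (h.2.1 j k).trans hd, fun j => (h.2.2 j).trans ha⟩

/-- the sum over monomials -/
theorem W_sum {Ω : Type} (s : Finset Ω) (n : Ω → ℤ) (z : Ω → ℂ)
    (A : Ω → Matrix (Fin N) (Fin N) ℤ[X]) (d : ℕ) (a : ℝ)
    (h : ∀ w ∈ s, W t b (z w) (A w) d a) :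
    W t b (∑ w ∈ s, (n w : ℂ) * z w) (fun j k => ∑ w ∈ s, C (n w) * A w j k) d
      ((∑ w ∈ s, |(n w : ℝ)|) * a) := by
  refine ⟨fun j => ?_, fun j k => ?_, fun j => ?_⟩
  · rw [Finset.sum_mul]
    have e : ∀ w ∈ s, (n w : ℂ) * z w * b j =
        ∑ k, aeval t (C (n w) * A w j k) * b k := by
      intro w hw
      rw [mul_assoc, (h w hw).1 j, Finset.mul_sum]
      refine Finset.sum_congr rfl fun k _ => ?_
      rw [map_mul, aeval_C]
      simp [mul_assoc]
    rw [Finset.sum_congr rfl e, Finset.sum_comm]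
    refine Finset.sum_congr rfl fun k _ => ?_
    rw [map_sum, Finset.sum_mul]
  · refine Polynomial.natDegree_sum_le_of_forall_le _ _ fun w hw => ?_
    exact (Polynomial.natDegree_C_mul_le _ _).trans ((h w hw).2.1 j k)
  · calc ∑ k, len (∑ w ∈ s, C (n w) * A w j k)
        ≤ ∑ k, ∑ w ∈ s, |(n w : ℝ)| * len (A w j k) :=
          Finset.sum_le_sum fun k _ =>
            (len_sum _ _).trans (Finset.sum_le_sum fun w _ => len_smul _ _)
      _ = ∑ w ∈ s, |(n w : ℝ)| * ∑ k, len (A w j k) := by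
          rw [Finset.sum_comm]
          refine Finset.sum_congr rfl fun w _ => ?_
          rw [Finset.mul_sum]
      _ ≤ ∑ w ∈ s, |(n w : ℝ)| * a :=
          Finset.sum_le_sum fun w hw =>
            mul_le_mul_of_nonneg_left ((h w hw).2.2 j) (abs_nonneg _)
      _ = (∑ w ∈ s, |(n w : ℝ)|) * a := by rw [Finset.sum_mul]

/-- `D(t) ^ δ z` is represented with the standard bounds -/
def PP (t : ℂ) (b : Fin N → ℂ) (D : ℤ[X]) (e : ℕ) (E : ℝ) (δ : ℕ) (z : ℂ) : Prop :=
  ∃ A : Matrix (Fin N) (Fin N) ℤ[X], W t b (aeval t D ^ δ * z) A (e * δ) (E ^ δ)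

theorem PP_mul {D : ℤ[X]} {e : ℕ} {E : ℝ} (hE : 1 ≤ E) {δ δ' : ℕ} {z z' : ℂ}
    (h : PP t b D e E δ z) (h' : PP t b D e E δ' z') : PP t b D e E (δ + δ') (z * z') := by
  obtain ⟨A, hA⟩ := h
  obtain ⟨A', hA'⟩ := h'
  refine ⟨A' * A, ?_⟩
  have := W_mul (by positivity) hA hA'
  have e1 : aeval t D ^ (δ + δ') * (z * z') = aeval t D ^ δ * z * (aeval t D ^ δ' * z') := by
    rw [pow_add]; ring
  rw [e1, mul_add, pow_add]
  exact this

theorem PP_one {D : ℤ[X]} {e : ℕ} {E : ℝ} : PP t b D e E 0 1 := by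
  refine ⟨Matrix.scalar (Fin N) 1, ?_⟩
  have := W_mono (W_scalar (t := t) (b := b) (1 : ℤ[X])) (d' := 0) (a' := 1)
    (by simp) len_one
  simpa using this

theorem PP_pow {D : ℤ[X]} {e : ℕ} {E : ℝ} (hE : 1 ≤ E) {z : ℂ} (h : PP t b D e E 1 z) (n : ℕ) :
    PP t b D e E n (z ^ n) := by
  induction n with
  | zero => simpa using PP_one (t := t) (b := b) (D := D) (e := e) (E := E)
  | succ n ih =>
    rw [pow_succ]
    exact PP_mul hE ih h

theorem PP_prod {D : ℤ[X]} {e : ℕ} {E : ℝ} (hE : 1 ≤ E) {ι : Type} (s : Finset ι)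
    (x : ι → ℂ) (h : ∀ i, PP t b D e E 1 (x i)) (m : ι → ℕ) :
    PP t b D e E (∑ i ∈ s, m i) (∏ i ∈ s, x i ^ m i) := by
  classical
  induction s using Finset.induction_on with
  | empty => simpa using PP_one (t := t) (b := b) (D := D) (e := e) (E := E)
  | insert a s ha ih =>
    rw [Finset.sum_insert ha, Finset.prod_insert ha]
    exact PP_mul hE (PP_pow hE (h a) _) ih

theorem pf_NRB : T_NRB := by
  intro t ι _ x N b D B hB
  set e : ℕ := D.natDegree + ∑ i, ∑ j, ∑ k, (B i j k).natDegree with he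
  set E : ℝ := 1 + len D + ∑ i, ∑ j, ∑ k, len (B i j k) with hEdef
  have hBn : 0 ≤ ∑ i, ∑ j, ∑ k, len (B i j k) :=
    Finset.sum_nonneg fun i _ => Finset.sum_nonneg fun j _ =>
      Finset.sum_nonneg fun k _ => len_nn _
  have hE : 1 ≤ E := by
    have := len_nn D
    linarith
  have hD1 : PP t b D e E 1 1 := by
    refine ⟨Matrix.scalar (Fin N) D, ?_⟩
    have := W_mono (W_scalar (t := t) (b := b) D) (d' := e * 1) (a' := E ^ 1)
      (by omega) (by rw [pow_one]; linarith)
    simpa using this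
  have hX : ∀ i, PP t b D e E 1 (x i) := by
    intro i
    refine ⟨B i, fun j => ?_, fun j k => ?_, fun j => ?_⟩
    · rw [pow_one]
      exact hB i j
    · have h1 : (B i j k).natDegree ≤ ∑ k, (B i j k).natDegree :=
        Finset.single_le_sum (f := fun k => (B i j k).natDegree) (fun _ _ => Nat.zero_le _)
          (Finset.mem_univ k)
      have h2 : ∑ k, (B i j k).natDegree ≤ ∑ j, ∑ k, (B i j k).natDegree :=
        Finset.single_le_sum (f := fun j => ∑ k, (B i j k).natDegree)
          (fun _ _ => Nat.zero_le _) (Finset.mem_univ j)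
      have h3 : ∑ j, ∑ k, (B i j k).natDegree ≤ ∑ i, ∑ j, ∑ k, (B i j k).natDegree :=
        Finset.single_le_sum (f := fun i => ∑ j, ∑ k, (B i j k).natDegree)
          (fun _ _ => Nat.zero_le _) (Finset.mem_univ i)
      omega
    · have h2 : ∑ k, len (B i j k) ≤ ∑ j, ∑ k, len (B i j k) :=
        Finset.single_le_sum (f := fun j => ∑ k, len (B i j k))
          (fun _ _ => Finset.sum_nonneg fun _ _ => len_nn _) (Finset.mem_univ j)
      have h3 : ∑ j, ∑ k, len (B i j k) ≤ ∑ i, ∑ j, ∑ k, len (B i j k) :=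
        Finset.single_le_sum (f := fun i => ∑ j, ∑ k, len (B i j k))
          (fun _ _ => Finset.sum_nonneg fun _ _ => Finset.sum_nonneg fun _ _ => len_nn _)
          (Finset.mem_univ i)
      have := len_nn D
      rw [pow_one]
      linarith
  have hmono : ∀ (m : ι →₀ ℕ) (δ : ℕ), ∑ i, m i ≤ δ → PP t b D e E δ (∏ i, x i ^ m i) := by
    intro m δ hm
    have h1 := PP_prod hE Finset.univ x hX m
    have h2 := PP_pow hE hD1 (δ - ∑ i, m i)
    have h3 := PP_mul hE h1 h2
    rw [Nat.add_sub_cancel' hm, one_pow, mul_one] at h3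
    exact h3
  refine ⟨e, E, hE, fun δ L z hz => ?_⟩
  obtain ⟨Φ, hdeg, hlen, hval⟩ := hz
  have hsup : ∀ m ∈ Φ.support, ∑ i, m i ≤ δ := by
    intro m hm
    have h := MvPolynomial.le_totalDegree hm
    rw [Finsupp.sum_fintype _ _ (fun _ => rfl)] at h
    exact h.trans hdeg
  have hch : ∀ m : ι →₀ ℕ, ∃ A : Matrix (Fin N) (Fin N) ℤ[X], m ∈ Φ.support →
      W t b (aeval t D ^ δ * ∏ i, x i ^ m i) A (e * δ) (E ^ δ) := by
    intro m
    by_cases hm : m ∈ Φ.support
    · obtain ⟨A, hA⟩ := hmono m δ (hsup m hm)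
      exact ⟨A, fun _ => hA⟩
    · exact ⟨0, fun h => absurd h hm⟩
  choose A hA using hch
  have hW := W_sum (t := t) (b := b) Φ.support (fun m => MvPolynomial.coeff m Φ)
    (fun m => aeval t D ^ δ * ∏ i, x i ^ m i) A (e * δ) (E ^ δ) (fun m hm => hA m hm)
  have hz : ∑ m ∈ Φ.support, ((MvPolynomial.coeff m Φ : ℤ) : ℂ) *
      (aeval t D ^ δ * ∏ i, x i ^ m i) = aeval t D ^ δ * z := by
    rw [← hval, MvPolynomial.aeval_def, MvPolynomial.eval₂_eq', Finset.mul_sum]
    refine Finset.sum_congr rfl fun m _ => ?_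
    rw [eq_intCast]
    ring
  rw [hz] at hW
  obtain ⟨w1, w2, w3⟩ := hW
  refine ⟨_, w1, fun j k => ⟨w2 j k, ?_⟩⟩
  have h1 : len (∑ w ∈ Φ.support, C (MvPolynomial.coeff w Φ) * A w j k) ≤
      ∑ k, len (∑ w ∈ Φ.support, C (MvPolynomial.coeff w Φ) * A w j k) :=
    Finset.single_le_sum (f := fun k => len (∑ w ∈ Φ.support,
      C (MvPolynomial.coeff w Φ) * A w j k)) (fun _ _ => len_nn _) (Finset.mem_univ k)
  refine h1.trans ((w3 j).trans ?_)
  exact mul_le_mul_of_nonneg_right hlen (by positivity)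

end

end Pool.Agent.H74.TD1
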