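import Pool.Agent.H18.TD.Targets

/-!
Board td1_modules (MP_58ae59_nt), row TAY: Taylor expansion of the derivative.
-/

set_option autoImplicit false

open Polynomial Module Filter Topology Pool.Agent.H18.TD

namespace Pool.Agent.H74.TD1

theorem exp_sum (x : ℂ) : HasSum (fun n : ℕ => x ^ n / (n.factorial : ℂ)) (Complex.exp x) := by
  rw [Complex.exp_eq_exp_ℂ]
  exact NormedSpace.expSeries_div_hasSum_exp x

/-- the shifted exponential series -/
theorem shifted (θ y : ℂ) (j : ℕ) :
    HasSum (fun n : ℕ => θ ^ n / (n.factorial : ℂ) * (n.descFactorial j : ℂ) * y ^ (n - j))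
      (θ ^ j * Complex.exp (θ * y)) := by
  rw [← hasSum_nat_add_iff' j]
  have h0 : ∑ i ∈ Finset.range j,
      θ ^ i / (i.factorial : ℂ) * (i.descFactorial j : ℂ) * y ^ (i - j) = 0 := by
    refine Finset.sum_eq_zero fun i hi => ?_
    rw [Nat.descFactorial_eq_zero_iff_lt.2 (Finset.mem_range.1 hi)]
    simp
  rw [h0, sub_zero]
  have h1 : (fun n : ℕ => θ ^ (n + j) / ((n + j).factorial : ℂ) *
      ((n + j).descFactorial j : ℂ) * y ^ (n + j - j)) =
      fun n : ℕ => θ ^ j * ((θ * y) ^ n / (n.factorial : ℂ)) := by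
    funext n
    have h2 : (n.factorial : ℂ) * ((n + j).descFactorial j : ℂ) = ((n + j).factorial : ℂ) := by
      have := Nat.factorial_mul_descFactorial (n := n + j) (k := j) (by omega)
      rw [Nat.add_sub_cancel] at this
      exact_mod_cast this
    have h3 : (n.factorial : ℂ) ≠ 0 := by exact_mod_cast n.factorial_ne_zero
    have h4 : ((n + j).factorial : ℂ) ≠ 0 := by exact_mod_cast (n + j).factorial_ne_zero
    rw [Nat.add_sub_cancel, mul_pow, pow_add]
    field_simp
    rw [← h2]
    ring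
  rw [h1]
  exact (exp_sum (θ * y)).mul_left _

theorem vander (n μ τ : ℕ) : ((n + μ).descFactorial τ : ℂ) =
    ∑ q ∈ Finset.HasAntidiagonal.antidiagonal τ, (τ.choose q.1 : ℂ) * (μ.descFactorial q.1 : ℂ) *
      (n.descFactorial q.2 : ℂ) := by
  rw [Nat.add_comm n μ, Nat.descFactorial_eq_factorial_mul_choose, Nat.add_choose_eq]
  push_cast
  rw [Finset.mul_sum]
  refine Finset.sum_congr rfl fun q hq => ?_
  have hq' : q.1 + q.2 = τ := Finset.HasAntidiagonal.mem_antidiagonal.1 hq
  rw [Nat.descFactorial_eq_factorial_mul_choose, Nat.descFactorial_eq_factorial_mul_choose]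
  have h := Nat.add_choose_mul_factorial_mul_factorial q.1 q.2
  have hs : τ.choose q.1 = τ.choose q.2 := by rw [← hq']; exact Nat.choose_symm_add
  rw [hq', ← hs] at h
  have h' : (τ.choose q.1 : ℂ) * (q.1.factorial : ℂ) * (q.2.factorial : ℂ) =
      (τ.factorial : ℂ) := by exact_mod_cast h
  push_cast
  rw [← h']
  ring

theorem pf_TAY : T_TAY := by
  intro μ τ θ y
  have key : HasSum (fun κ : ℕ => tc μ θ κ * (κ.descFactorial τ : ℂ) * y ^ (κ - τ))
      (der μ θ τ y * Complex.exp (θ * y)) := by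
    rw [← hasSum_nat_add_iff' μ]
    have h0 : ∑ i ∈ Finset.range μ, tc μ θ i * (i.descFactorial τ : ℂ) * y ^ (i - τ) = 0 := by
      refine Finset.sum_eq_zero fun i hi => ?_
      have : ¬ μ ≤ i := by have := Finset.mem_range.1 hi; omega
      unfold tc
      rw [if_neg this]
      simp
    rw [h0, sub_zero]
    have h1 : (fun n : ℕ => tc μ θ (n + μ) * ((n + μ).descFactorial τ : ℂ) *
        y ^ (n + μ - τ)) = fun n : ℕ => ∑ q ∈ Finset.HasAntidiagonal.antidiagonal τ,
          ((τ.choose q.1 : ℂ) * (μ.descFactorial q.1 : ℂ) * y ^ (μ - q.1)) *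
          (θ ^ n / (n.factorial : ℂ) * (n.descFactorial q.2 : ℂ) * y ^ (n - q.2)) := by
      funext n
      have ht : tc μ θ (n + μ) = θ ^ n / (n.factorial : ℂ) := by
        unfold tc
        rw [if_pos (by omega), Nat.add_sub_cancel]
      rw [ht, vander, Finset.mul_sum, Finset.sum_mul]
      refine Finset.sum_congr rfl fun q hq => ?_
      have hq' : q.1 + q.2 = τ := Finset.HasAntidiagonal.mem_antidiagonal.1 hq
      by_cases h1 : q.1 ≤ μ
      · by_cases h2 : q.2 ≤ n
        · have : n + μ - τ = (μ - q.1) + (n - q.2) := by omega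
          rw [this, pow_add]
          ring
        · rw [Nat.descFactorial_eq_zero_iff_lt.2 (by omega : n < q.2)]
          simp
      · rw [Nat.descFactorial_eq_zero_iff_lt.2 (by omega : μ < q.1)]
        simp
    rw [h1]
    have h2 : der μ θ τ y * Complex.exp (θ * y) = ∑ q ∈ Finset.HasAntidiagonal.antidiagonal τ,
        ((τ.choose q.1 : ℂ) * (μ.descFactorial q.1 : ℂ) * y ^ (μ - q.1)) *
          (θ ^ q.2 * Complex.exp (θ * y)) := by
      rw [Finset.Nat.sum_antidiagonal_eq_sum_range_succ (fun i j =>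
        ((τ.choose i : ℂ) * (μ.descFactorial i : ℂ) * y ^ (μ - i)) *
          (θ ^ j * Complex.exp (θ * y))) τ]
      unfold der
      rw [Finset.sum_mul]
      refine Finset.sum_congr rfl fun q _ => ?_
      ring
    rw [h2]
    exact hasSum_sum fun q _ => (shifted θ y q.2).mul_left _
  exact key.tendsto_sum_nat

end Pool.Agent.H74.TD1
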